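import Pool.Agent.K7.H69.LC.Stm

set_option autoImplicit false

namespace Pool.Agent.K7.H29.LCCODE

open Pool.Agent.K7.H69.LC

theorem spot_spec (A : Finset ℕ) (p : ℕ) : p ≤ spot A p ∧ spot A p ∉ A ∧
    ∀ s, p ≤ s → s ∉ A → spot A p ≤ s := by
  have hne : {s : ℕ | p ≤ s ∧ s ∉ A}.Nonempty := by
    obtain ⟨s, hs⟩ := Infinite.exists_notMem_finset (A ∪ Finset.range p)
    rw [Finset.mem_union, Finset.mem_range, not_or, not_lt] at hs
    exact ⟨s, hs.2, hs.1⟩
  have h := Nat.sInf_mem hne
  exact ⟨h.1, h.2, fun s h1 h2 => Nat.sInf_le ⟨h1, h2⟩⟩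

theorem spot_big (n : ℕ) (A : Finset ℕ) (hA : ∀ a ∈ A, a ≤ n) (p : ℕ) (hp : p ≤ n + 1)
    (h : ¬ spot A p ≤ n) : spot A p = n + 1 := by
  obtain ⟨-, -, h3⟩ := spot_spec A p
  have := h3 (n + 1) hp (fun hm => by have := hA _ hm; omega)
  omega

theorem spot_ins_small (n : ℕ) (A : Finset ℕ) (p : ℕ) (h : spot A p ≤ n) :
    spot (insert (n + 1) A) p = spot A p := by
  obtain ⟨h1, h2, h3⟩ := spot_spec A p
  obtain ⟨g1, g2, g3⟩ := spot_spec (insert (n + 1) A) p
  rw [Finset.mem_insert, not_or] at g2
  apply le_antisymm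
  · apply g3 _ h1
    rw [Finset.mem_insert, not_or]
    exact ⟨by omega, h2⟩
  · exact h3 _ g1 g2.2

theorem spot_ins_big (n : ℕ) (A : Finset ℕ) (hA : ∀ a ∈ A, a ≤ n) (p : ℕ) (hp : p ≤ n + 1)
    (h : ¬ spot A p ≤ n) : ¬ spot (insert (n + 1) A) p ≤ n + 1 := by
  obtain ⟨h1, h2, h3⟩ := spot_spec A p
  obtain ⟨g1, g2, g3⟩ := spot_spec (insert (n + 1) A) p
  rw [Finset.mem_insert, not_or] at g2
  have := h3 _ g1 g2.2
  have := spot_big n A hA p hp h
  omega

theorem spot_top (n : ℕ) (A : Finset ℕ) (hA : ∀ a ∈ A, a ≤ n) : spot A (n + 1) = n + 1 := by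
  obtain ⟨h1, -, -⟩ := spot_spec A (n + 1)
  exact spot_big n A hA (n + 1) le_rfl (by omega)

theorem lemB (n : ℕ) (w : List ℕ) : ∀ A : Finset ℕ, (∀ a ∈ A, a ≤ n) → (∀ p ∈ w, p ≤ n) →
    code (n + 1) (insert (n + 1) A) w = code n A w := by
  induction w with
  | nil => intro A _ _; simp [code]
  | cons p w ih =>
    intro A hA hw
    have hp : p ≤ n := hw p (by simp)
    have hw' : ∀ q ∈ w, q ≤ n := fun q hq => hw q (by simp [hq])
    by_cases h : spot A p ≤ n
    · have h1 := spot_ins_small n A p h
      simp only [code]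
      rw [h1, if_pos h, if_pos (by omega), Finset.insert_comm]
      rw [ih (insert (spot A p) A) (fun a ha => by
        rw [Finset.mem_insert] at ha
        rcases ha with rfl | ha
        · exact h
        · exact hA a ha) hw']
    · have h1 := spot_ins_big n A hA p (by omega) h
      simp only [code]
      rw [if_neg h, if_neg h1, ih A hA hw']

theorem lemD (n : ℕ) (y x : List ℕ) : ∀ A : Finset ℕ, (∀ a ∈ A, a ≤ n) → (∀ p ∈ x, p ≤ n) →
    (∀ p ∈ y, p ≤ n) → code (n + 1) (insert (n + 1) A) (x ++ (n + 1) :: (n + 1) :: y)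
      = (code n A (x ++ y)).take x.length ++ false :: false :: (code n A (x ++ y)).drop x.length := by
  induction x with
  | nil =>
    intro A hA _ hy
    have h := spot_top n A hA
    have h1 := spot_ins_big n A hA (n + 1) le_rfl (by omega)
    simp only [List.nil_append, List.length_nil, List.take_zero, List.drop_zero, code]
    rw [if_neg h1, if_neg h1, lemB n y A hA hy]
  | cons p x ih =>
    intro A hA hx hy
    have hp : p ≤ n := hx p (by simp)
    have hx' : ∀ q ∈ x, q ≤ n := fun q hq => hx q (by simp [hq])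
    simp only [List.cons_append, List.length_cons, code]
    by_cases h : spot A p ≤ n
    · have h1 := spot_ins_small n A p h
      rw [h1, if_pos h, if_pos (by omega), Finset.insert_comm,
        ih (insert (spot A p) A) (fun a ha => by
          rw [Finset.mem_insert] at ha
          rcases ha with rfl | ha
          · exact h
          · exact hA a ha) hx' hy]
      simp
    · have h1 := spot_ins_big n A hA p (by omega) h
      rw [if_neg h, if_neg h1, ih A hA hx' hy]
      simp

theorem lemMain (n : ℕ) (y x : List ℕ) : ∀ A : Finset ℕ, (∀ a ∈ A, a ≤ n) → (∀ p ∈ x, p ≤ n) →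
    (∀ p ∈ y, p ≤ n) → code (n + 1) A (x ++ (n + 1) :: (n + 1) :: y)
      = ins (code n A (x ++ y)) x.length := by
  induction x with
  | nil =>
    intro A hA _ hy
    have h := spot_top n A hA
    have h1 := spot_ins_big n A hA (n + 1) le_rfl (by omega)
    simp only [List.nil_append, List.length_nil, code, ins, List.take_zero, List.drop_zero,
      List.all_nil, if_true]
    rw [h, if_pos le_rfl, if_neg h1, lemB n y A hA hy]
  | cons p x ih =>
    intro A hA hx hy
    have hp : p ≤ n := hx p (by simp)
    have hx' : ∀ q ∈ x, q ≤ n := fun q hq => hx q (by simp [hq])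
    simp only [List.cons_append, List.length_cons, code]
    by_cases h : spot A p ≤ n
    · rw [if_pos h, if_pos (by omega),
        ih (insert (spot A p) A) (fun a ha => by
          rw [Finset.mem_insert] at ha
          rcases ha with rfl | ha
          · exact h
          · exact hA a ha) hx' hy]
      simp only [ins, List.take_succ_cons, List.drop_succ_cons, List.all_cons, id, Bool.true_and,
        fix]
      split_ifs <;> simp
    · have h1 := spot_big n A hA p (by omega) h
      rw [if_neg h, h1, if_pos le_rfl, lemD n y x A hA hx' hy]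
      simp [ins, fix]

theorem t : StCode := by
  intro n w g hw hg
  have h := lemMain n (w.drop g) (w.take g) ∅ (by simp)
    (fun p hp => hw p (List.mem_of_mem_take hp)) (fun p hp => hw p (List.mem_of_mem_drop hp))
  rw [List.take_append_drop, List.length_take, Nat.min_eq_left hg] at h
  exact h

end Pool.Agent.K7.H29.LCCODE
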